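import Pool.Agent.K4H31.SV.Det
import Pool.Agent.TH220.HG.Sub

/-! Deforming a lattice by a matrix close to the identity (for MP_ef2672_gt). -/

open Matrix Finset

namespace Pool.Agent.K4H31.SV

open Pool.Agent.H160R3.Herm Pool.Agent.TH220.HG

/-- the point `A w` -/
def vec {n : ℕ} (A : Matrix (Fin n) (Fin n) ℝ) (w : Fin n → ℤ) : Fin n → ℝ :=
  A *ᵥ fun j => (w j : ℝ)

/-- the value of the quadratic form `Q` at the unit vector in the direction of `A w` -/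
noncomputable def qval {n : ℕ} (A Q : Matrix (Fin n) (Fin n) ℝ) (w : Fin n → ℤ) : ℝ :=
  (vec A w ⬝ᵥ (Q *ᵥ vec A w)) / nsq A w

theorem vec_dot {n : ℕ} (A : Matrix (Fin n) (Fin n) ℝ) (w : Fin n → ℤ) :
    vec A w ⬝ᵥ vec A w = nsq A w := by
  unfold vec nsq dotProduct
  refine Finset.sum_congr rfl fun i _ => ?_
  rw [sq]

open scoped MatrixOrder in
theorem exists_root {n : ℕ} {S : Matrix (Fin n) (Fin n) ℝ} (hS : S.IsHermitian)
    (h : ∀ x : Fin n → ℝ, 0 ≤ x ⬝ᵥ (S *ᵥ x)) :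
    ∃ C : Matrix (Fin n) (Fin n) ℝ, S = Cᵀ * C := by
  have hP : S.PosSemidef := by
    apply PosSemidef.of_dotProduct_mulVec_nonneg hS
    intro x
    have := h x
    simpa using this
  obtain ⟨C, hC⟩ := CStarAlgebra.nonneg_iff_eq_star_mul_self.mp hP.nonneg
  refine ⟨C, ?_⟩
  rw [hC, star_eq_conjTranspose, conjTranspose_eq_transpose_of_trivial]

theorem nsq_mul {n : ℕ} (C A : Matrix (Fin n) (Fin n) ℝ) (w : Fin n → ℤ) :
    nsq (C * A) w = vec A w ⬝ᵥ ((Cᵀ * C) *ᵥ vec A w) := by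
  rw [← vec_dot]
  have : vec (C * A) w = C *ᵥ vec A w := by
    unfold vec
    rw [Matrix.mulVec_mulVec]
  rw [this, ← Matrix.mulVec_mulVec, Matrix.dotProduct_mulVec (vec A w) Cᵀ, Matrix.vecMul_transpose]

/-- the deformation inequality -/
theorem deform {n : ℕ} (hn : 0 < n) {A : Matrix (Fin n) (Fin n) ℝ} (hA : A.det ≠ 0)
    {S : Matrix (Fin n) (Fin n) ℝ} (hS : S.IsHermitian)
    (h : ∀ x : Fin n → ℝ, 0 ≤ x ⬝ᵥ (S *ᵥ x)) {b : ℝ} (hb : 0 ≤ b) (hd0 : 0 < S.det)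
    (hd : S.det ≤ b ^ n) {c : ℝ}
    (hc : ∀ w : Fin n → ℤ, w ≠ 0 → c * minSq A ≤ vec A w ⬝ᵥ (S *ᵥ vec A w)) :
    c * gam A ≤ hermite n * b := by
  have hn' : (0 : ℝ) < n := by exact_mod_cast hn
  obtain ⟨C, hC⟩ := exists_root hS h
  have hdetS : S.det = C.det ^ 2 := by
    rw [hC, Matrix.det_mul, Matrix.det_transpose, sq]
  have hC0 : C.det ≠ 0 := by
    intro h0
    rw [hdetS, h0] at hd0
    norm_num at hd0
  have hCA : (C * A).det ≠ 0 := by
    rw [Matrix.det_mul]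
    exact mul_ne_zero hC0 hA
  have hmin : c * minSq A ≤ minSq (C * A) := by
    apply le_minSq hn
    intro w hw
    change c * minSq A ≤ nsq (C * A) w
    rw [nsq_mul, ← hC]
    exact hc w hw
  have h1 := le_hermite hn (C * A) hCA
  have hdA : 0 < |A.det| := abs_pos.2 hA
  have hdC : 0 < |C.det| := abs_pos.2 hC0
  rw [Matrix.det_mul, abs_mul, Real.mul_rpow hdC.le hdA.le, div_le_iff₀ (by positivity)] at h1
  have h2 : |C.det| ^ ((2 : ℝ) / n) ≤ b := by
    have e1 : |C.det| ^ ((2 : ℝ) / n) = S.det ^ ((1 : ℝ) / n) := by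
      rw [hdetS, ← sq_abs C.det, ← Real.rpow_natCast (|C.det|) 2, ← Real.rpow_mul hdC.le]
      congr 1
      push_cast
      ring
    rw [e1]
    calc S.det ^ ((1 : ℝ) / n) ≤ (b ^ n) ^ ((1 : ℝ) / n) :=
          Real.rpow_le_rpow hd0.le hd (by positivity)
      _ = b := by
          rw [← Real.rpow_natCast b n, ← Real.rpow_mul hb]
          rw [mul_one_div_cancel hn'.ne', Real.rpow_one]
  have hh0 : 0 ≤ hermite n := by
    refine le_trans ?_ (le_hermite hn A hA)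
    exact div_nonneg (minSq_nonneg A) (by positivity)
  have hg : gam A * |A.det| ^ ((2 : ℝ) / n) = minSq A := by
    unfold gam
    exact div_mul_cancel₀ _ (by positivity)
  have hpos : 0 < |A.det| ^ ((2 : ℝ) / n) := by positivity
  refine le_of_mul_le_mul_right ?_ hpos
  calc c * gam A * |A.det| ^ ((2 : ℝ) / n) = c * minSq A := by rw [mul_assoc, hg]
    _ ≤ minSq (C * A) := hmin
    _ ≤ hermite n * (|C.det| ^ ((2 : ℝ) / n) * |A.det| ^ ((2 : ℝ) / n)) := h1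
    _ ≤ hermite n * (b * |A.det| ^ ((2 : ℝ) / n)) := by gcongr
    _ = _ := by ring

theorem gam_pos {n : ℕ} (hn : 0 < n) {A : Matrix (Fin n) (Fin n) ℝ} (hA : A.det ≠ 0) :
    0 < gam A :=
  div_pos (minSq_pos hn hA) (Real.rpow_pos_of_pos (abs_pos.2 hA) _)

theorem gam_le {n : ℕ} (hn : 0 < n) {A : Matrix (Fin n) (Fin n) ℝ} (hA : A.det ≠ 0) :
    gam A ≤ hermite n :=
  le_hermite hn A hA

theorem trace_abs {n : ℕ} {Q : Matrix (Fin n) (Fin n) ℝ}
    (hQ1 : ∀ x : Fin n → ℝ, |x ⬝ᵥ (Q *ᵥ x)| ≤ x ⬝ᵥ x) : |Q.trace| ≤ n := by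
  have h1 : ∀ i, |Q i i| ≤ 1 := by
    intro i
    have := hQ1 (Pi.single i 1)
    simpa using this
  calc |Q.trace| = |∑ i, Q i i| := rfl
    _ ≤ ∑ i, |Q i i| := Finset.abs_sum_le_sum_abs _ _
    _ ≤ ∑ _i : Fin n, (1 : ℝ) := Finset.sum_le_sum fun i _ => h1 i
    _ = n := by simp

/-- the core inequality -/
theorem core {n : ℕ} (hn : 0 < n) {A : Matrix (Fin n) (Fin n) ℝ} (hA : A.det ≠ 0)
    {τ : ℝ} (hτ0 : 0 < τ) (hτ1 : τ < 1) {Q : Matrix (Fin n) (Fin n) ℝ} (hQ : Q.IsSymm)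
    (hQ1 : ∀ x : Fin n → ℝ, |x ⬝ᵥ (Q *ᵥ x)| ≤ x ⬝ᵥ x) :
    0 ≤ (Q * Q).trace / n - (Q.trace / n) ^ 2 ∧
    ∃ w : Fin n → ℤ, w ≠ 0 ∧ nsq A w < (1 + τ) / (1 - τ) * minSq A ∧
      Q.trace / n + τ / (2 * (1 + τ)) * ((Q * Q).trace / n - (Q.trace / n) ^ 2)
        - (1 + τ) / τ * (hermite n / gam A - 1) ≤ qval A Q w := by
  classical
  have hn' : (0 : ℝ) < n := by exact_mod_cast hn
  have hτ2 : 0 < 1 - τ := by linarith
  have hmin := minSq_pos hn hA
  set m : ℝ := Q.trace / n with hm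
  set v : ℝ := (Q * Q).trace / n - m ^ 2 with hv
  set r : ℝ := (1 + τ) / (1 - τ) with hr
  have hr1 : 1 < r := by
    rw [hr, lt_div_iff₀ hτ2]; linarith
  set S : Matrix (Fin n) (Fin n) ℝ := 1 - τ • Q with hSdef
  have hSx : ∀ x : Fin n → ℝ, x ⬝ᵥ (S *ᵥ x) = x ⬝ᵥ x - τ * (x ⬝ᵥ (Q *ᵥ x)) := by
    intro x
    rw [hSdef, Matrix.sub_mulVec, Matrix.one_mulVec, Matrix.smul_mulVec, dotProduct_sub,
      dotProduct_smul, smul_eq_mul]
  have hS : S.IsHermitian := by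
    rw [Matrix.IsHermitian, conjTranspose_eq_transpose_of_trivial, hSdef, transpose_sub,
      transpose_one, transpose_smul, hQ]
  have hxx : ∀ x : Fin n → ℝ, 0 ≤ x ⬝ᵥ x := fun x => by
    unfold dotProduct
    exact Finset.sum_nonneg fun i _ => mul_self_nonneg _
  have h1 : ∀ x : Fin n → ℝ, (1 - τ) * (x ⬝ᵥ x) ≤ x ⬝ᵥ (S *ᵥ x) := by
    intro x
    rw [hSx]
    have := (abs_le.1 (hQ1 x)).2
    nlinarith
  have h2 : ∀ x : Fin n → ℝ, x ⬝ᵥ (S *ᵥ x) ≤ (1 + τ) * (x ⬝ᵥ x) := by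
    intro x
    rw [hSx]
    have := (abs_le.1 (hQ1 x)).1
    nlinarith
  have htr : S.trace = n * (1 - τ * m) := by
    rw [hSdef, trace_sub, trace_one, trace_smul, hm, Fintype.card_fin, smul_eq_mul]
    field_simp
  have htr2 : (S * S).trace = n * (τ ^ 2 * v + (1 - τ * m) ^ 2) := by
    have e : S * S = 1 - (2 * τ) • Q + (τ ^ 2) • (Q * Q) := by
      rw [hSdef, sub_mul, mul_sub, mul_sub, one_mul, mul_one, one_mul, smul_mul_assoc,
        mul_smul_comm, smul_smul, two_mul, add_smul, sq]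
      abel
    rw [e, trace_add, trace_sub, trace_one, trace_smul, trace_smul, Fintype.card_fin, smul_eq_mul,
      smul_eq_mul, hv, hm]
    field_simp
    ring
  obtain ⟨c1, c2, c3, c4⟩ := det_le hn hτ0 hτ1 hS h1 h2 htr htr2 rfl
  set b : ℝ := 1 - τ * m - τ ^ 2 * v / (2 * (1 + τ)) with hb
  have hv0 : 0 ≤ v := nonneg_of_mul_nonneg_right c3 (by positivity)
  refine ⟨hv0, ?_⟩
  -- the short vectors
  have hfin := short_finite hA r
  set F := hfin.toFinset with hF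
  have hFm : ∀ x, x ∈ F ↔ x ≠ 0 ∧ nsq A x < r * minSq A := by
    intro x
    rw [hF, Set.Finite.mem_toFinset]
    rfl
  obtain ⟨w0, hw0, hw0m⟩ := exists_min hn hA
  have hne : F.Nonempty := ⟨w0, by
    rw [hFm]
    refine ⟨hw0, ?_⟩
    rw [hw0m]
    nlinarith⟩
  obtain ⟨w1, hw1, hmax⟩ := F.exists_max_image (qval A Q) hne
  rw [hFm] at hw1
  refine ⟨w1, hw1.1, hw1.2, ?_⟩
  set q := qval A Q w1 with hq
  have hqb : ∀ w : Fin n → ℤ, w ≠ 0 → |qval A Q w| ≤ 1 := by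
    intro w hw
    have hp := nsq_pos hA hw
    unfold qval
    rw [abs_div, abs_of_pos hp, div_le_one hp, ← vec_dot]
    exact hQ1 _
  have hq1 := abs_le.1 (hqb w1 hw1.1)
  have hc : ∀ w : Fin n → ℤ, w ≠ 0 → (1 - τ * q) * minSq A ≤ vec A w ⬝ᵥ (S *ᵥ vec A w) := by
    intro w hw
    have hp := nsq_pos hA hw
    have hle := minSq_le A w hw
    change minSq A ≤ nsq A w at hle
    have e1 : vec A w ⬝ᵥ (Q *ᵥ vec A w) = qval A Q w * nsq A w := by
      unfold qval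
      rw [div_mul_cancel₀ _ hp.ne']
    by_cases hwF : w ∈ F
    · rw [hSx, vec_dot, e1]
      have h3 := hmax w hwF
      have h4 : 0 ≤ 1 - τ * q := by nlinarith
      calc (1 - τ * q) * minSq A ≤ (1 - τ * q) * nsq A w := mul_le_mul_of_nonneg_left hle h4
        _ ≤ (1 - τ * qval A Q w) * nsq A w := by
            apply mul_le_mul_of_nonneg_right _ hp.le
            nlinarith
        _ = _ := by ring
    · have h3 : r * minSq A ≤ nsq A w := by
        by_contra hcon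
        push Not at hcon
        exact hwF ((hFm w).2 ⟨hw, hcon⟩)
      have h4 := h1 (vec A w)
      rw [vec_dot] at h4
      refine le_trans ?_ h4
      calc (1 - τ * q) * minSq A ≤ (1 + τ) * minSq A := by
            apply mul_le_mul_of_nonneg_right _ hmin.le
            nlinarith
        _ = (1 - τ) * (r * minSq A) := by
            rw [hr]
            field_simp
        _ ≤ (1 - τ) * nsq A w := mul_le_mul_of_nonneg_left h3 hτ2.le
  have hD := deform hn hA hS (fun x => le_trans (mul_nonneg hτ2.le (hxx x)) (h1 x))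
    (by linarith : (0 : ℝ) ≤ b) c1 c4 hc
  have hg := gam_pos hn hA
  set R : ℝ := hermite n / gam A with hR
  have hR1 : 1 ≤ R := by
    rw [hR, le_div_iff₀ hg, one_mul]
    exact gam_le hn hA
  have h5 : 1 - τ * q ≤ R * b := by
    rw [hR, div_mul_eq_mul_div, le_div_iff₀ hg]
    exact hD
  have hm1 : |m| ≤ 1 := by
    rw [hm, abs_div, abs_of_pos hn', div_le_one hn']
    exact trace_abs hQ1
  have hm2 := abs_le.1 hm1
  have h6 : τ * (m + τ / (2 * (1 + τ)) * v - (1 + τ) / τ * (R - 1)) ≤ τ * q := by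
    have e2 : τ * (m + τ / (2 * (1 + τ)) * v - (1 + τ) / τ * (R - 1)) =
        τ * m + τ ^ 2 * v / (2 * (1 + τ)) - (1 + τ) * (R - 1) := by
      field_simp
    rw [e2]
    have h7 : R * b ≤ b + (R - 1) * (1 + τ) := by
      have : b ≤ 1 + τ := by
        have : 0 ≤ τ ^ 2 * v / (2 * (1 + τ)) := by positivity
        rw [hb]
        nlinarith
      nlinarith
    have h8 : b = 1 - τ * m - τ ^ 2 * v / (2 * (1 + τ)) := hb
    linarith
  exact le_of_mul_le_mul_left h6 hτ0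

end Pool.Agent.K4H31.SV
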