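import Mathlib

/-! A refined arithmetic-geometric mean inequality for determinants (for MP_ef2672_gt). -/

open Matrix Finset

namespace Pool.Agent.K4H31.SV

theorem log_quad {y Y : ℝ} (hy : 0 < y) (hyY : y ≤ Y) (hY : 1 ≤ Y) :
    Real.log y ≤ (y - 1) - (y - 1) ^ 2 / (2 * Y) := by
  rcases le_or_gt 1 y with h | h
  · have h1 : Real.log y ≤ Real.sinh (Real.log y) := Real.self_le_sinh_iff.2 (Real.log_nonneg h)
    rw [Real.sinh_log hy] at h1
    have h2 : (y - y⁻¹) / 2 = (y - 1) - (y - 1) ^ 2 / (2 * y) := by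
      field_simp
      ring
    have h3 : (y - 1) ^ 2 / (2 * Y) ≤ (y - 1) ^ 2 / (2 * y) :=
      div_le_div_of_nonneg_left (sq_nonneg _) (by positivity) (by linarith)
    linarith
  · have h0 : |1 - y| < 1 := by
      rw [abs_lt]; constructor <;> linarith
    have h1 := Real.hasSum_pow_div_log_of_abs_lt_one h0
    have h2 := sum_le_hasSum (Finset.range 2) (fun i _ => by
      have : 0 ≤ 1 - y := by linarith
      positivity) h1
    rw [Finset.sum_range_succ, Finset.sum_range_one] at h2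
    norm_num at h2
    have h3 : (y - 1) ^ 2 / (2 * Y) ≤ (1 - y) ^ 2 / 2 := by
      rw [div_le_div_iff₀ (by positivity) (by norm_num)]
      nlinarith [sq_nonneg (y - 1)]
    linarith

/-- a refined arithmetic-geometric mean inequality -/
theorem prod_le {n : ℕ} (hn : 0 < n) {τ : ℝ} (hτ0 : 0 < τ) (hτ1 : τ < 1) (x : Fin n → ℝ)
    (hx : ∀ i, 1 - τ ≤ x i) (hx' : ∀ i, x i ≤ 1 + τ) {a V b : ℝ} (ha : ∑ i, x i = n * a)
    (hV : ∑ i, x i ^ 2 = n * (V + a ^ 2)) (hb : b = a - V / (2 * (1 + τ))) :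
    1 - τ ≤ b ∧ 0 ≤ V ∧ ∏ i, x i ≤ b ^ n := by
  have hn' : (0 : ℝ) < n := by exact_mod_cast hn
  have ha1 : 1 - τ ≤ a := by
    have : (n : ℝ) * (1 - τ) ≤ n * a := by
      rw [← ha]
      calc (n : ℝ) * (1 - τ) = ∑ _i : Fin n, (1 - τ) := by simp; ring
        _ ≤ _ := Finset.sum_le_sum fun i _ => hx i
    exact le_of_mul_le_mul_left this hn'
  have ha2 : a ≤ 1 + τ := by
    have : (n : ℝ) * a ≤ n * (1 + τ) := by
      rw [← ha]
      calc ∑ i, x i ≤ ∑ _i : Fin n, (1 + τ) := Finset.sum_le_sum fun i _ => hx' i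
        _ = _ := by simp; ring
    exact le_of_mul_le_mul_left this hn'
  have hV0 : 0 ≤ V := by
    have h1 : ∑ i, (x i - a) ^ 2 = n * V := by
      calc ∑ i, (x i - a) ^ 2 = ∑ i, (x i ^ 2 - 2 * a * x i + a ^ 2) := by
            refine Finset.sum_congr rfl fun i _ => by ring
        _ = ∑ i, x i ^ 2 - 2 * a * ∑ i, x i + n * a ^ 2 := by
            rw [Finset.sum_add_distrib, Finset.sum_sub_distrib, ← Finset.mul_sum]
            simp
        _ = n * V := by rw [ha, hV]; ring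
    have h2 : 0 ≤ (n : ℝ) * V := by
      rw [← h1]
      exact Finset.sum_nonneg fun i _ => sq_nonneg _
    exact nonneg_of_mul_nonneg_right h2 hn'
  have hV1 : V ≤ (1 + τ - a) * (a - (1 - τ)) := by
    have h1 : ∑ i, (x i - (1 - τ)) * ((1 + τ) - x i) =
        n * ((1 + τ - a) * (a - (1 - τ)) - V) := by
      calc ∑ i, (x i - (1 - τ)) * ((1 + τ) - x i)
          = ∑ i, (2 * x i - x i ^ 2 - (1 - τ ^ 2)) := by
            refine Finset.sum_congr rfl fun i _ => by ring
        _ = 2 * ∑ i, x i - ∑ i, x i ^ 2 - n * (1 - τ ^ 2) := by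
            rw [Finset.sum_sub_distrib, Finset.sum_sub_distrib, ← Finset.mul_sum]
            simp
            ring
        _ = _ := by rw [ha, hV]; ring
    have h2 : 0 ≤ (n : ℝ) * ((1 + τ - a) * (a - (1 - τ)) - V) := by
      rw [← h1]
      refine Finset.sum_nonneg fun i _ => mul_nonneg ?_ ?_
      · linarith [hx i]
      · linarith [hx' i]
    have := nonneg_of_mul_nonneg_right h2 hn'
    linarith
  have hb1 : 1 - τ ≤ b := by
    rw [hb, le_sub_iff_add_le, ← le_sub_iff_add_le', div_le_iff₀ (by positivity)]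
    nlinarith [mul_nonneg (sub_nonneg.2 ha1) (by linarith : (0 : ℝ) ≤ 1 + τ + a)]
  have hb0 : 0 < b := by linarith
  have hba : b ≤ a := by
    rw [hb]
    have : 0 ≤ V / (2 * (1 + τ)) := by positivity
    linarith
  refine ⟨hb1, hV0, ?_⟩
  have hx0 : ∀ i, 0 < x i := fun i => by linarith [hx i]
  have hY : 1 ≤ (1 + τ) / b := by
    rw [le_div_iff₀ hb0]; linarith
  have hlog : ∀ i, Real.log (x i) - Real.log b ≤
      (x i / b - 1) - (x i / b - 1) ^ 2 / (2 * ((1 + τ) / b)) := by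
    intro i
    rw [← Real.log_div (hx0 i).ne' hb0.ne']
    exact log_quad (by have := hx0 i; positivity)
      (div_le_div_of_nonneg_right (hx' i) hb0.le) hY
  have hsum : ∑ i, Real.log (x i) - n * Real.log b ≤ 0 := by
    calc ∑ i, Real.log (x i) - n * Real.log b = ∑ i, (Real.log (x i) - Real.log b) := by
          rw [Finset.sum_sub_distrib]; simp
      _ ≤ ∑ i, ((x i / b - 1) - (x i / b - 1) ^ 2 / (2 * ((1 + τ) / b))) :=
          Finset.sum_le_sum fun i _ => hlog i
      _ = ∑ i, ((1 / b + 1 / (1 + τ)) * x i - 1 / (2 * (1 + τ) * b) * x i ^ 2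
            - (1 + b / (2 * (1 + τ)))) := by
          refine Finset.sum_congr rfl fun i _ => ?_
          field_simp
          ring
      _ = (1 / b + 1 / (1 + τ)) * (n * a) - 1 / (2 * (1 + τ) * b) * (n * (V + a ^ 2))
            - n * (1 + b / (2 * (1 + τ))) := by
          rw [Finset.sum_sub_distrib, Finset.sum_sub_distrib, ← Finset.mul_sum, ← Finset.mul_sum,
            ha, hV]
          simp
          ring
      _ = (n / b) * ((a - b) - V / (2 * (1 + τ)) - (a - b) ^ 2 / (2 * (1 + τ))) := by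
          field_simp
          ring
      _ ≤ 0 := by
          have h1 : (a - b) - V / (2 * (1 + τ)) = 0 := by rw [hb]; ring
          rw [h1]
          have h2 : 0 ≤ (a - b) ^ 2 / (2 * (1 + τ)) := by positivity
          have h3 : 0 < n / b := by positivity
          nlinarith
  have h1 : Real.log (∏ i, x i) ≤ Real.log (b ^ n) := by
    rw [Real.log_prod (fun i _ => (hx0 i).ne'), Real.log_pow]
    linarith
  exact (Real.log_le_log_iff (Finset.prod_pos fun i _ => hx0 i) (by positivity)).1 h1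

theorem trace_sq {n : ℕ} {S : Matrix (Fin n) (Fin n) ℝ} (hS : S.IsHermitian) :
    (S * S).trace = ∑ i, hS.eigenvalues i ^ 2 := by
  have h := hS.spectral_theorem
  conv_lhs => rw [h, ← map_mul]
  rw [Unitary.conjStarAlgAut_apply, Matrix.trace_mul_comm, ← Matrix.mul_assoc]
  simp [Matrix.trace, Matrix.diagonal_mul_diagonal, sq]

/-- the determinant bound -/
theorem det_le {n : ℕ} (hn : 0 < n) {τ : ℝ} (hτ0 : 0 < τ) (hτ1 : τ < 1)
    {S : Matrix (Fin n) (Fin n) ℝ} (hS : S.IsHermitian)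
    (h1 : ∀ x : Fin n → ℝ, (1 - τ) * (x ⬝ᵥ x) ≤ x ⬝ᵥ (S *ᵥ x))
    (h2 : ∀ x : Fin n → ℝ, x ⬝ᵥ (S *ᵥ x) ≤ (1 + τ) * (x ⬝ᵥ x)) {a V b : ℝ}
    (ha : S.trace = n * a) (hV : (S * S).trace = n * (V + a ^ 2))
    (hb : b = a - V / (2 * (1 + τ))) :
    0 < S.det ∧ 1 - τ ≤ b ∧ 0 ≤ V ∧ S.det ≤ b ^ n := by
  have he : ∀ i, 1 - τ ≤ hS.eigenvalues i ∧ hS.eigenvalues i ≤ 1 + τ := by
    intro i
    have e1 := hS.eigenvalues_eq i
    set v : Fin n → ℝ := ⇑(hS.eigenvectorBasis i) with hv
    have hvv : v ⬝ᵥ v = 1 := by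
      have h3 := hS.eigenvectorBasis.orthonormal.1 i
      have h4 := EuclideanSpace.real_norm_sq_eq (hS.eigenvectorBasis i)
      rw [h3, one_pow] at h4
      rw [h4]
      simp only [dotProduct, hv, sq]
    have e2 : hS.eigenvalues i = v ⬝ᵥ (S *ᵥ v) := by
      rw [e1]
      simp
    have h5 := h1 v
    have h6 := h2 v
    rw [hvv, mul_one] at h5 h6
    rw [e2]
    exact ⟨h5, h6⟩
  have hdet : S.det = ∏ i, hS.eigenvalues i := by
    have := hS.det_eq_prod_eigenvalues
    simpa using this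
  have htr : ∑ i, hS.eigenvalues i = n * a := by
    rw [← ha]
    have := hS.trace_eq_sum_eigenvalues
    simpa using this.symm
  obtain ⟨c1, c2, c3⟩ := prod_le hn hτ0 hτ1 hS.eigenvalues (fun i => (he i).1)
    (fun i => (he i).2) htr (by rw [← trace_sq hS, hV]) hb
  refine ⟨?_, c1, c2, ?_⟩
  · rw [hdet]
    exact Finset.prod_pos fun i _ => by linarith [(he i).1]
  · rw [hdet]; exact c3

end Pool.Agent.K4H31.SV
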