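import Pool.Agent.K4H31.SV.Perfect

/-! The master inequality: combining an arbitrary linear deformation with sublattices of prime
index (for MP_ef2672_gt). -/

open Matrix Finset

namespace Pool.Agent.K4H31.SV

open Pool.Agent.H160R3.Herm Pool.Agent.TH220.HG

theorem vec_smul {n : ℕ} (A : Matrix (Fin n) (Fin n) ℝ) (j : ℤ) (w : Fin n → ℤ) :
    vec A (j • w) = (j : ℝ) • vec A w := by
  unfold vec
  have : (fun i => ((j • w) i : ℝ)) = (j : ℝ) • (fun i => (w i : ℝ)) := by ext i; simp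
  rw [this, Matrix.mulVec_smul]

theorem qval_smul {n : ℕ} (A Q : Matrix (Fin n) (Fin n) ℝ) {j : ℤ} (hj : j ≠ 0)
    (w : Fin n → ℤ) : qval A Q (j • w) = qval A Q w := by
  have hj' : (j : ℝ) ≠ 0 := by exact_mod_cast hj
  unfold qval
  rw [vec_smul, nsq_smul, mulVec_smul, smul_dotProduct, dotProduct_smul, smul_eq_mul, smul_eq_mul,
    ← mul_assoc, ← sq, mul_div_mul_left _ _ (pow_ne_zero 2 hj')]

/-- a sublattice of prime index avoiding a given set -/
theorem avoid {n : ℕ} (hn : 0 < n) (A : Matrix (Fin n) (Fin n) ℝ) (E : Finset (Fin n → ℤ))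
    (hE0 : ∀ x ∈ E, x ≠ 0) (hneg : ∀ x ∈ E, -x ∈ E)
    (hdiv : ∀ (y : Fin n → ℤ) (p : ℕ), ((p : ℤ) • y) ∈ E → ∀ j : ℤ, j ≠ 0 → |j| ≤ p → j • y ∈ E)
    (hne : E.Nonempty) :
    ∃ (p : ℕ) (B : Matrix (Fin n) (Fin n) ℝ), 0 < p ∧ p ≤ E.card ∧ B.det = A.det * p ∧
      ∀ w : Fin n → ℤ, w ≠ 0 → ∃ x : Fin n → ℤ, x ≠ 0 ∧ x ∉ E ∧ vec B w = vec A x := by
  classical
  obtain ⟨k, rfl⟩ : ∃ k, n = k + 1 := ⟨n - 1, by omega⟩
  obtain ⟨w0, hw0⟩ := hne
  have hF2 : 2 ≤ E.card := by
    have hne : w0 ≠ -w0 := by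
      intro h
      apply hE0 w0 hw0
      ext i
      have h3 := congrFun h i
      simp only [Pi.neg_apply] at h3
      simp only [Pi.zero_apply]
      omega
    calc 2 = ({w0, -w0} : Finset (Fin (k + 1) → ℤ)).card := (Finset.card_pair hne).symm
      _ ≤ _ := Finset.card_le_card (by
        intro y hy
        rw [mem_insert, mem_singleton] at hy
        rcases hy with rfl | rfl
        · exact hw0
        · exact hneg _ hw0)
  obtain ⟨p, hp, hp1, hp2⟩ := Nat.exists_prime_lt_and_le_two_mul (E.card / 2) (by omega)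
  have : Fact p.Prime := ⟨hp⟩
  have hFp : E.card < 2 * p := by omega
  have hpF : p ≤ E.card := by omega
  have h0 : ∀ x ∈ E, ∃ i, (x i : ZMod p) ≠ 0 := by
    intro x hx
    by_contra hcon
    push Not at hcon
    have hd : ∀ i, (p : ℤ) ∣ x i := fun i => (ZMod.intCast_zmod_eq_zero_iff_dvd _ _).1 (hcon i)
    choose y hy using hd
    have hxy : x = (p : ℤ) • y := by
      ext i
      rw [hy i]
      simp
    have hy0 : y ≠ 0 := by
      rintro rfl
      apply hE0 x hx
      rw [hxy]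
      simp
    have hle : ((Finset.Icc (-(p : ℤ)) p).erase 0).card ≤ E.card := by
      apply Finset.card_le_card_of_injOn (fun j : ℤ => j • y)
      · intro j hj
        rw [Finset.mem_coe, Finset.mem_erase, Finset.mem_Icc] at hj
        rw [Finset.mem_coe]
        rw [hxy] at hx
        exact hdiv y p hx j hj.1 (abs_le.2 hj.2)
      · intro i _ j _ hij
        exact smul_left_injective ℤ hy0 hij
    rw [Finset.card_erase_of_mem (by rw [Finset.mem_Icc]; constructor <;> simp),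
      Int.card_Icc] at hle
    omega
  obtain ⟨a, ha⟩ := exists_avoid k p E hneg h0 hFp
  refine ⟨p, A * modMat k p (fun j => (a j).val), hp.pos, hpF, ?_, ?_⟩
  · rw [Matrix.det_mul, det_modMat]
  · intro w hw
    refine ⟨modVec k p (fun j => (a j).val) w, modVec_ne k p hp.ne_zero _ hw, ?_, ?_⟩
    · intro hx
      exact ha _ hx (modVec_mem k p a w)
    · unfold vec
      rw [← Matrix.mulVec_mulVec]
      congr 1
      ext i
      exact mulVec_modMat k p _ w i

theorem det_pos' {n : ℕ} {S : Matrix (Fin n) (Fin n) ℝ} (hS : S.IsSymm) {α : ℝ} (hα : 0 < α)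
    (h1 : ∀ x : Fin n → ℝ, α * (x ⬝ᵥ x) ≤ x ⬝ᵥ (S *ᵥ x)) : 0 < S.det := by
  have hP : S.PosDef := by
    apply PosDef.of_dotProduct_mulVec_pos
    · rw [Matrix.IsHermitian, conjTranspose_eq_transpose_of_trivial, hS]
    · intro x hx
      have h2 : 0 < x ⬝ᵥ x := by
        refine lt_of_le_of_ne ?_ fun h => hx (dotProduct_self_eq_zero.1 h.symm)
        unfold dotProduct
        exact Finset.sum_nonneg fun i _ => mul_self_nonneg _
      have h3 := h1 x
      have : 0 < α * (x ⬝ᵥ x) := mul_pos hα h2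
      simpa using lt_of_lt_of_le this h3
  exact hP.det_pos

/-- one vector -/
theorem master {n : ℕ} (hn : 0 < n) {A : Matrix (Fin n) (Fin n) ℝ} (hA : A.det ≠ 0)
    {S : Matrix (Fin n) (Fin n) ℝ} (hS : S.IsSymm) {α β : ℝ} (hα : 0 < α) (hαβ : α ≤ β)
    (h1 : ∀ x : Fin n → ℝ, α * (x ⬝ᵥ x) ≤ x ⬝ᵥ (S *ᵥ x))
    (h2 : ∀ x : Fin n → ℝ, x ⬝ᵥ (S *ᵥ x) ≤ β * (x ⬝ᵥ x)) :
    ∃ w : Fin n → ℤ, w ≠ 0 ∧ nsq A w ≤ β / α * minSq A ∧
      qval A S w ≤ hermite n / gam A * S.det ^ ((1 : ℝ) / n) := by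
  classical
  have hn' : (0 : ℝ) < n := by exact_mod_cast hn
  have hmin := minSq_pos hn hA
  have hg := gam_pos hn hA
  have hd0 := det_pos' hS hα h1
  set d : ℝ := S.det ^ ((1 : ℝ) / n) with hd
  have hdp : 0 < d := Real.rpow_pos_of_pos hd0 _
  have hdn : d ^ n = S.det := by
    rw [hd, ← Real.rpow_natCast, ← Real.rpow_mul hd0.le, one_div_mul_cancel hn'.ne', Real.rpow_one]
  have hfin : {w : Fin n → ℤ | w ≠ 0 ∧ nsq A w ≤ β / α * minSq A}.Finite :=
    (finite_lt hA (β / α * minSq A + 1)).subset fun w hw => by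
      have := hw.2
      show nsq A w < β / α * minSq A + 1
      linarith
  set F := hfin.toFinset with hF
  have hFm : ∀ x, x ∈ F ↔ x ≠ 0 ∧ nsq A x ≤ β / α * minSq A := by
    intro x
    rw [hF, Set.Finite.mem_toFinset]
    rfl
  have hba : 1 ≤ β / α := by rw [le_div_iff₀ hα]; linarith
  obtain ⟨w0, hw0, hw0m⟩ := exists_min hn hA
  have hne : F.Nonempty := ⟨w0, by
    rw [hFm]
    refine ⟨hw0, ?_⟩
    rw [hw0m]
    nlinarith⟩
  obtain ⟨w1, hw1, hmax⟩ := F.exists_min_image (qval A S) hne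
  rw [hFm] at hw1
  refine ⟨w1, hw1.1, hw1.2, ?_⟩
  have hq : ∀ w : Fin n → ℤ, w ≠ 0 → α ≤ qval A S w ∧ qval A S w ≤ β := by
    intro w hw
    have hp := nsq_pos hA hw
    unfold qval
    rw [le_div_iff₀ hp, div_le_iff₀ hp, ← vec_dot]
    exact ⟨h1 _, h2 _⟩
  have hq1 := hq w1 hw1.1
  set c := qval A S w1 with hc
  have hall : ∀ w : Fin n → ℤ, w ≠ 0 → c * minSq A ≤ vec A w ⬝ᵥ (S *ᵥ vec A w) := by
    intro w hw
    have hp := nsq_pos hA hw
    have hle := minSq_le A w hw
    change minSq A ≤ nsq A w at hle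
    have e1 : vec A w ⬝ᵥ (S *ᵥ vec A w) = qval A S w * nsq A w := by
      unfold qval
      rw [div_mul_cancel₀ _ hp.ne']
    by_cases hwF : w ∈ F
    · rw [e1]
      have h3 := hmax w hwF
      calc c * minSq A ≤ c * nsq A w := mul_le_mul_of_nonneg_left hle (by linarith [hq1.1])
        _ ≤ _ := mul_le_mul_of_nonneg_right h3 hp.le
    · have h3 : β / α * minSq A ≤ nsq A w := by
        by_contra hcon
        push Not at hcon
        exact hwF ((hFm w).2 ⟨hw, hcon.le⟩)
      have h4 := h1 (vec A w)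
      rw [vec_dot] at h4
      refine le_trans ?_ h4
      calc c * minSq A ≤ β * minSq A := mul_le_mul_of_nonneg_right hq1.2 hmin.le
        _ = α * (β / α * minSq A) := by field_simp
        _ ≤ α * nsq A w := mul_le_mul_of_nonneg_left h3 hα.le
  have hSH : S.IsHermitian := by
    rw [Matrix.IsHermitian, conjTranspose_eq_transpose_of_trivial, hS]
  have hD := deform hn hA hSH (fun x => le_trans (mul_nonneg hα.le (by
    unfold dotProduct
    exact Finset.sum_nonneg fun i _ => mul_self_nonneg _)) (h1 x)) hdp.le hd0 hdn.ge hall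
  rw [div_mul_eq_mul_div, le_div_iff₀ hg]
  exact hD

/-- number of nonzero vectors of squared length less than `t` times the minimum -/
noncomputable def cnt {n : ℕ} (A : Matrix (Fin n) (Fin n) ℝ) (t : ℝ) : ℕ := (short A t).ncard

/-- `ρ = (γ_n / γ(A)) (N + M)^{2/n} / t` where `N` is the number of nonzero vectors of squared
length less than `t` times the minimum -/
noncomputable def rho {n : ℕ} (A : Matrix (Fin n) (Fin n) ℝ) (t : ℝ) (M : ℕ) : ℝ :=
  hermite n / gam A * ((cnt A t + M : ℕ) : ℝ) ^ ((2 : ℝ) / n) / t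

/-- the vectors with squared length between `t` and `T` times the minimum -/
def band {n : ℕ} (A : Matrix (Fin n) (Fin n) ℝ) (t T : ℝ) : Set (Fin n → ℤ) :=
  {w | w ≠ 0 ∧ t * minSq A ≤ nsq A w ∧ nsq A w ≤ T * minSq A}

theorem band_finite {n : ℕ} {A : Matrix (Fin n) (Fin n) ℝ} (hA : A.det ≠ 0) (t T : ℝ) :
    (band A t T).Finite :=
  (finite_lt hA (T * minSq A + 1)).subset fun w hw => by
    have := hw.2.2
    show nsq A w < T * minSq A + 1
    linarith

theorem one_le_rho {n : ℕ} (hn : 0 < n) {A : Matrix (Fin n) (Fin n) ℝ} (hA : A.det ≠ 0)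
    {t : ℝ} (ht : 1 ≤ t) {M : ℕ} (hM : 0 < M) : 1 ≤ rho A t M := by
  have hn' : (0 : ℝ) < n := by exact_mod_cast hn
  have ht0 : 0 < t := by linarith
  have hM' : (1 : ℝ) ≤ M := by exact_mod_cast hM
  have hg := gam_pos hn hA
  unfold rho
  set R : ℝ := hermite n / gam A with hR
  have hR1 : 1 ≤ R := by
    rw [hR, le_div_iff₀ hg, one_mul]
    exact gam_le hn hA
  set L : ℝ := ((cnt A t + M : ℕ) : ℝ) with hL
  have hL1 : 1 ≤ L := by
    rw [hL]; push_cast
    have : (0 : ℝ) ≤ cnt A t := Nat.cast_nonneg _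
    linarith
  have hMp : 1 ≤ L ^ ((2 : ℝ) / n) := Real.one_le_rpow hL1 (by positivity)
  rw [le_div_iff₀ ht0, one_mul]
  rcases ht.eq_or_lt with h | h
  · rw [← h]; nlinarith
  · have h1 := sub_ineq hn hA h
    have h2 : t * gam A ≤ L ^ ((2 : ℝ) / n) * hermite n := by
      refine h1.trans ?_
      apply mul_le_mul_of_nonneg_right _ (hg.le.trans (gam_le hn hA))
      apply Real.rpow_le_rpow (by positivity) _ (by positivity)
      rw [hL, cnt]
      push_cast
      linarith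
    rw [hR, div_mul_eq_mul_div, le_div_iff₀ hg]
    linarith

/-- many vectors: the master inequality -/
theorem manyS {n : ℕ} (hn : 0 < n) {A : Matrix (Fin n) (Fin n) ℝ} (hA : A.det ≠ 0)
    {t : ℝ} (ht : 1 ≤ t) {M : ℕ} (hM : 0 < M)
    {S : Matrix (Fin n) (Fin n) ℝ} (hS : S.IsSymm) {α β : ℝ} (hα : 0 < α) (hαβ : α ≤ β)
    (hS1 : ∀ x : Fin n → ℝ, α * (x ⬝ᵥ x) ≤ x ⬝ᵥ (S *ᵥ x))
    (hS2 : ∀ x : Fin n → ℝ, x ⬝ᵥ (S *ᵥ x) ≤ β * (x ⬝ᵥ x)) :
    M ≤ (band A t (β / α * rho A t M * t) ∩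
      {w | qval A S w ≤ rho A t M * S.det ^ ((1 : ℝ) / n)}).ncard := by
  classical
  have hn' : (0 : ℝ) < n := by exact_mod_cast hn
  have ht0 : 0 < t := by linarith
  have hmin := minSq_pos hn hA
  have hg := gam_pos hn hA
  have hρ1 := one_le_rho hn hA ht hM
  have hd0 := det_pos' hS hα hS1
  set d : ℝ := S.det ^ ((1 : ℝ) / n) with hd
  have hdp : 0 < d := Real.rpow_pos_of_pos hd0 _
  set R : ℝ := hermite n / gam A with hR
  have hR1 : 1 ≤ R := by
    rw [hR, le_div_iff₀ hg, one_mul]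
    exact gam_le hn hA
  set r : ℝ := β / α with hr
  have hr1 : 1 ≤ r := by
    rw [hr, le_div_iff₀ hα]; linarith
  have hr0 : 0 < r := by linarith
  set N := cnt A t with hN
  set L : ℝ := ((N + M : ℕ) : ℝ) with hL
  have hL1 : 1 ≤ L := by
    have hM' : (1 : ℝ) ≤ M := by exact_mod_cast hM
    rw [hL]; push_cast
    have : (0 : ℝ) ≤ N := Nat.cast_nonneg N
    linarith
  have hMp : 1 ≤ L ^ ((2 : ℝ) / n) := Real.one_le_rpow hL1 (by positivity)
  set ρ : ℝ := rho A t M with hρ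
  have hρe : ρ = R * L ^ ((2 : ℝ) / n) / t := rfl
  set c : ℝ := ρ * d with hc
  have hrρ : 1 ≤ r * ρ := by nlinarith
  have hfin : (band A t (r * ρ * t) ∩ {w | qval A S w ≤ c}).Finite :=
    (band_finite hA _ _).subset Set.inter_subset_left
  have hfE : {w : Fin n → ℤ | w ≠ 0 ∧ nsq A w ≤ r * ρ * t * minSq A ∧
      (nsq A w < t * minSq A ∨ qval A S w ≤ c)}.Finite :=
    (finite_lt hA (r * ρ * t * minSq A + 1)).subset fun w hw => by
      have := hw.2.1
      show nsq A w < r * ρ * t * minSq A + 1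
      linarith
  set E := hfE.toFinset with hE
  have hEm : ∀ x, x ∈ E ↔ x ≠ 0 ∧ nsq A x ≤ r * ρ * t * minSq A ∧
      (nsq A x < t * minSq A ∨ qval A S x ≤ c) := by
    intro x
    rw [hE, Set.Finite.mem_toFinset]
    rfl
  by_contra hcon
  push Not at hcon
  have hEc : E.card < N + M := by
    have h1 : E.card ≤ (short A t).ncard +
        (band A t (r * ρ * t) ∩ {w | qval A S w ≤ c}).ncard := by
      rw [Set.ncard_eq_toFinset_card _ hfin, Set.ncard_eq_toFinset_card _ (short_finite hA t)]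
      refine le_trans (Finset.card_le_card ?_) (Finset.card_union_le _ _)
      intro x hx
      rw [hEm] at hx
      rw [Finset.mem_union, Set.Finite.mem_toFinset, Set.Finite.mem_toFinset]
      by_cases hxt : nsq A x < t * minSq A
      · exact Or.inl ⟨hx.1, hxt⟩
      · push Not at hxt
        refine Or.inr ⟨⟨hx.1, hxt, hx.2.1⟩, ?_⟩
        rcases hx.2.2 with h | h
        · exact absurd h (not_lt.2 hxt)
        · exact h
    have h2 : (short A t).ncard = N := rfl
    omega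
  rcases E.eq_empty_or_nonempty with hem | hne
  · -- then `t = 1`
    have ht1 : t = 1 := by
      by_contra hne1
      have h1 : 1 < t := lt_of_le_of_ne ht (Ne.symm hne1)
      obtain ⟨w0, hw0, hw0m⟩ := exists_min hn hA
      have : w0 ∈ E := by
        rw [hEm]
        have h3 : nsq A w0 < t * minSq A := by rw [hw0m]; nlinarith
        refine ⟨hw0, h3.le.trans ?_, Or.inl h3⟩
        apply mul_le_mul_of_nonneg_right _ hmin.le
        nlinarith
      rw [hem] at this
      simp at this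
    have hRρ : R ≤ ρ := by
      rw [hρe, ht1, div_one]
      nlinarith
    obtain ⟨w, hw, hws, hwq⟩ := master hn hA hS hα hαβ hS1 hS2
    have : w ∈ E := by
      rw [hEm]
      refine ⟨hw, hws.trans ?_, Or.inr (hwq.trans ?_)⟩
      · rw [← hr, ht1, mul_one]
        have : r ≤ r * ρ := by nlinarith
        exact mul_le_mul_of_nonneg_right this hmin.le
      · rw [hc]
        exact mul_le_mul_of_nonneg_right hRρ hdp.le
    rw [hem] at this
    simp at this
  · obtain ⟨p, B, hp0, hpE, hdet, hB⟩ := avoid hn A E (fun x hx => ((hEm x).1 hx).1)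
      (by
        intro x hx
        rw [hEm] at hx ⊢
        have e : -x = (-1 : ℤ) • x := by simp
        refine ⟨neg_ne_zero.2 hx.1, ?_, ?_⟩
        · rw [nsq_neg]; exact hx.2.1
        · rw [nsq_neg, e, qval_smul A S (by norm_num)]; exact hx.2.2)
      (by
        intro y p hx j hj hjp
        rw [hEm] at hx ⊢
        have hy : y ≠ 0 := by
          rintro rfl
          apply hx.1
          simp
        have hp : (p : ℤ) ≠ 0 := by
          intro h
          apply hx.1
          rw [h, zero_smul]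
        have hle : nsq A (j • y) ≤ nsq A ((p : ℤ) • y) := by
          rw [nsq_smul, nsq_smul]
          apply mul_le_mul_of_nonneg_right _ (nsq_nonneg _ _)
          have : |(j : ℝ)| ≤ |((p : ℤ) : ℝ)| := by
            rw [abs_of_nonneg (by positivity : (0 : ℝ) ≤ ((p : ℤ) : ℝ))]
            exact_mod_cast hjp
          exact sq_le_sq.2 this
        refine ⟨smul_ne_zero hj hy, hle.trans hx.2.1, ?_⟩
        rw [qval_smul A S hj]
        rw [qval_smul A S hp] at hx
        rcases hx.2.2 with h | h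
        · exact Or.inl (lt_of_le_of_lt hle h)
        · exact Or.inr h)
      hne
    have hp0' : (0 : ℝ) < p := by exact_mod_cast hp0
    have hB0 : B.det ≠ 0 := by rw [hdet]; exact mul_ne_zero hA hp0'.ne'
    have hpM : (p : ℝ) ^ ((2 : ℝ) / n) ≤ L ^ ((2 : ℝ) / n) := by
      apply Real.rpow_le_rpow hp0'.le _ (by positivity)
      rw [hL]
      exact_mod_cast hpE.trans hEc.le
    have hpp : 0 < (p : ℝ) ^ ((2 : ℝ) / n) := Real.rpow_pos_of_pos hp0' _
    have hdA : 0 < |A.det| := abs_pos.2 hA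
    have hdAp : 0 < |A.det| ^ ((2 : ℝ) / n) := Real.rpow_pos_of_pos hdA _
    have hBE : ∀ w : Fin n → ℤ, w ≠ 0 → t * minSq A ≤ nsq B w := by
      intro w hw
      obtain ⟨x, hx, hxE, hv⟩ := hB w hw
      rw [← vec_dot, hv, vec_dot]
      by_contra hlt
      push Not at hlt
      apply hxE
      rw [hEm]
      refine ⟨hx, hlt.le.trans ?_, Or.inl hlt⟩
      apply mul_le_mul_of_nonneg_right _ hmin.le
      nlinarith
    have hBmin : t * minSq A ≤ minSq B := by
      apply le_minSq hn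
      intro w hw
      exact hBE w hw
    have hgA : gam A * |A.det| ^ ((2 : ℝ) / n) = minSq A := by
      unfold gam
      exact div_mul_cancel₀ _ hdAp.ne'
    have hgB : gam B * (|A.det| ^ ((2 : ℝ) / n) * (p : ℝ) ^ ((2 : ℝ) / n)) = minSq B := by
      unfold gam
      rw [hdet, abs_mul, abs_of_pos hp0', Real.mul_rpow hdA.le hp0'.le]
      exact div_mul_cancel₀ _ (by positivity)
    have hgBp := gam_pos hn hB0
    have hgB2 := gam_le hn hB0
    -- the minimum of `B`
    have hBmin2 : minSq B ≤ ρ * t * minSq A := by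
      rw [← hgB, ← hgA, hρe, hR]
      calc gam B * (|A.det| ^ ((2 : ℝ) / n) * (p : ℝ) ^ ((2 : ℝ) / n))
          ≤ hermite n * (|A.det| ^ ((2 : ℝ) / n) * L ^ ((2 : ℝ) / n)) := by
            apply mul_le_mul hgB2 _ (by positivity) (hgBp.le.trans hgB2)
            exact mul_le_mul_of_nonneg_left hpM hdAp.le
        _ = _ := by field_simp
    have hRB : hermite n / gam B ≤ ρ := by
      rw [div_le_iff₀ hgBp]
      have h1 : t * gam A ≤ gam B * (p : ℝ) ^ ((2 : ℝ) / n) := by
        refine le_of_mul_le_mul_right ?_ hdAp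
        rw [mul_assoc, hgA]
        refine hBmin.trans (le_of_eq ?_)
        rw [← hgB]
        ring
      have h2 : t * gam A ≤ gam B * L ^ ((2 : ℝ) / n) :=
        h1.trans (mul_le_mul_of_nonneg_left hpM hgBp.le)
      have h3 : hermite n = R * gam A := by
        rw [hR, div_mul_cancel₀ _ hg.ne']
      rw [h3, hρe]
      refine le_of_mul_le_mul_right ?_ ht0
      calc R * gam A * t = R * (t * gam A) := by ring
        _ ≤ R * (gam B * L ^ ((2 : ℝ) / n)) :=
            mul_le_mul_of_nonneg_left h2 (by linarith)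
        _ = (R * L ^ ((2 : ℝ) / n) / t * t) * gam B := by
            rw [div_mul_cancel₀ _ ht0.ne']; ring
        _ = _ := by ring
    obtain ⟨w, hw, hws, hwq⟩ := master hn hB0 hS hα hαβ hS1 hS2
    obtain ⟨x, hx, hxE, hv⟩ := hB w hw
    apply hxE
    have hnx : nsq B w = nsq A x := by rw [← vec_dot, hv, vec_dot]
    have hqx : qval B S w = qval A S x := by
      unfold qval
      rw [hv, hnx]
    rw [hEm]
    refine ⟨hx, ?_, Or.inr ?_⟩
    · rw [← hnx]
      refine hws.trans ?_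
      rw [← hr, mul_assoc r, mul_assoc r]
      exact mul_le_mul_of_nonneg_left hBmin2 hr0.le
    · rw [← hqx]
      refine hwq.trans ?_
      rw [hc, ← hd]
      exact mul_le_mul_of_nonneg_right hRB hdp.le

/-- the threshold -/
noncomputable def bound {n : ℕ} (A Q : Matrix (Fin n) (Fin n) ℝ) (τ t : ℝ) (M : ℕ) : ℝ :=
  Q.trace / n + τ / (2 * (1 + τ)) * ((Q * Q).trace / n - (Q.trace / n) ^ 2)
    - (1 + τ) / τ * (rho A t M - 1)

/-- the linear form of the master inequality -/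
theorem many {n : ℕ} (hn : 0 < n) {A : Matrix (Fin n) (Fin n) ℝ} (hA : A.det ≠ 0)
    {τ : ℝ} (hτ0 : 0 < τ) (hτ1 : τ < 1) {t : ℝ} (ht : 1 ≤ t) {M : ℕ} (hM : 0 < M)
    {Q : Matrix (Fin n) (Fin n) ℝ} (hQ : Q.IsSymm)
    (hQ1 : ∀ x : Fin n → ℝ, |x ⬝ᵥ (Q *ᵥ x)| ≤ x ⬝ᵥ x) :
    0 ≤ (Q * Q).trace / n - (Q.trace / n) ^ 2 ∧
    M ≤ (band A t ((1 + τ) / (1 - τ) * rho A t M * t) ∩
      {w | bound A Q τ t M ≤ qval A Q w}).ncard := by
  classical
  have hn' : (0 : ℝ) < n := by exact_mod_cast hn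
  have hτ2 : 0 < 1 - τ := by linarith
  set m : ℝ := Q.trace / n with hm
  set v : ℝ := (Q * Q).trace / n - m ^ 2 with hv
  set S : Matrix (Fin n) (Fin n) ℝ := 1 - τ • Q with hSdef
  have hSx : ∀ x : Fin n → ℝ, x ⬝ᵥ (S *ᵥ x) = x ⬝ᵥ x - τ * (x ⬝ᵥ (Q *ᵥ x)) := by
    intro x
    rw [hSdef, Matrix.sub_mulVec, Matrix.one_mulVec, Matrix.smul_mulVec, dotProduct_sub,
      dotProduct_smul, smul_eq_mul]
  have hSs : S.IsSymm := by
    rw [Matrix.IsSymm, hSdef, transpose_sub, transpose_one, transpose_smul, hQ]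
  have hS : S.IsHermitian := by
    rw [Matrix.IsHermitian, conjTranspose_eq_transpose_of_trivial, hSs]
  have h1 : ∀ x : Fin n → ℝ, (1 - τ) * (x ⬝ᵥ x) ≤ x ⬝ᵥ (S *ᵥ x) := by
    intro x
    rw [hSx]
    have := (abs_le.1 (hQ1 x)).2
    nlinarith
  have h2 : ∀ x : Fin n → ℝ, x ⬝ᵥ (S *ᵥ x) ≤ (1 + τ) * (x ⬝ᵥ x) := by
    intro x
    rw [hSx]
    have := (abs_le.1 (hQ1 x)).1
    nlinarith
  have htr : S.trace = n * (1 - τ * m) := by
    rw [hSdef, trace_sub, trace_one, trace_smul, hm, Fintype.card_fin, smul_eq_mul]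
    field_simp
  have htr2 : (S * S).trace = n * (τ ^ 2 * v + (1 - τ * m) ^ 2) := by
    have e : S * S = 1 - (2 * τ) • Q + (τ ^ 2) • (Q * Q) := by
      rw [hSdef, sub_mul, mul_sub, mul_sub, one_mul, mul_one, one_mul, smul_mul_assoc,
        mul_smul_comm, smul_smul, two_mul, add_smul, sq]
      abel
    rw [e, trace_add, trace_sub, trace_one, trace_smul, trace_smul, Fintype.card_fin, smul_eq_mul,
      smul_eq_mul, hv, hm]
    field_simp
    ring
  obtain ⟨c1, c2, c3, c4⟩ := det_le hn hτ0 hτ1 hS h1 h2 htr htr2 rfl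
  set b : ℝ := 1 - τ * m - τ ^ 2 * v / (2 * (1 + τ)) with hb
  have hv0 : 0 ≤ v := nonneg_of_mul_nonneg_right c3 (by positivity)
  refine ⟨hv0, ?_⟩
  have hmain := manyS hn hA ht hM hSs hτ2 (by linarith : 1 - τ ≤ 1 + τ) h1 h2
  refine hmain.trans (Set.ncard_le_ncard ?_ ((band_finite hA _ _).subset Set.inter_subset_left))
  rintro w ⟨hwb, hw⟩
  refine ⟨hwb, ?_⟩
  rw [Set.mem_ofPred_eq] at hw ⊢
  have hp := nsq_pos hA hwb.1
  have hρ1 := one_le_rho hn hA ht hM
  have hdet : S.det ^ ((1 : ℝ) / n) ≤ b := by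
    calc S.det ^ ((1 : ℝ) / n) ≤ (b ^ n) ^ ((1 : ℝ) / n) :=
          Real.rpow_le_rpow c1.le c4 (by positivity)
      _ = b := by
          rw [← Real.rpow_natCast b n, ← Real.rpow_mul (by linarith)]
          rw [mul_one_div_cancel hn'.ne', Real.rpow_one]
  set q := qval A Q w with hq
  have hSq : qval A S w = 1 - τ * q := by
    rw [hq, qval, qval, hSx, vec_dot, sub_div, div_self hp.ne']
    ring
  set ρ := rho A t M with hρ
  have h5 : 1 - τ * q ≤ ρ * b := by
    rw [← hSq]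
    exact hw.trans (mul_le_mul_of_nonneg_left hdet (by linarith))
  have hm1 : |m| ≤ 1 := by
    rw [hm, abs_div, abs_of_pos hn', div_le_one hn']
    exact trace_abs hQ1
  have hm2 := abs_le.1 hm1
  have h6 : τ * (m + τ / (2 * (1 + τ)) * v - (1 + τ) / τ * (ρ - 1)) ≤ τ * q := by
    have e2 : τ * (m + τ / (2 * (1 + τ)) * v - (1 + τ) / τ * (ρ - 1)) =
        τ * m + τ ^ 2 * v / (2 * (1 + τ)) - (1 + τ) * (ρ - 1) := by
      field_simp
    rw [e2]
    have h7 : ρ * b ≤ b + (ρ - 1) * (1 + τ) := by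
      have : b ≤ 1 + τ := by
        have : 0 ≤ τ ^ 2 * v / (2 * (1 + τ)) := by positivity
        rw [hb]
        nlinarith
      nlinarith
    have h8 : b = 1 - τ * m - τ ^ 2 * v / (2 * (1 + τ)) := hb
    linarith
  exact le_of_mul_le_mul_left h6 hτ0

end Pool.Agent.K4H31.SV
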