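import Pool.Agent.K4H31.SV.Master

/-! Weights on the short vectors, by the minimax theorem (for MP_ef2672_gt). -/

open Matrix Finset

namespace Pool.Agent.K4H31.SV

open Pool.Agent.H160R3.Herm Pool.Agent.TH220.HG

/-- symmetric matrices of operator norm at most one -/
def ball (n : ℕ) : Set (Matrix (Fin n) (Fin n) ℝ) :=
  {Q | Q.IsSymm ∧ ∀ x : Fin n → ℝ, |x ⬝ᵥ (Q *ᵥ x)| ≤ x ⬝ᵥ x}

theorem form_add {n : ℕ} (P Q : Matrix (Fin n) (Fin n) ℝ) (a b : ℝ) (x : Fin n → ℝ) :
    x ⬝ᵥ ((a • P + b • Q) *ᵥ x) = a * (x ⬝ᵥ (P *ᵥ x)) + b * (x ⬝ᵥ (Q *ᵥ x)) := by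
  rw [Matrix.add_mulVec, dotProduct_add, Matrix.smul_mulVec, Matrix.smul_mulVec, dotProduct_smul,
    dotProduct_smul, smul_eq_mul, smul_eq_mul]

theorem ball_convex (n : ℕ) : Convex ℝ (ball n) := by
  intro P hP Q hQ a b ha hb hab
  refine ⟨?_, ?_⟩
  · rw [Matrix.IsSymm, transpose_add, transpose_smul, transpose_smul, hP.1, hQ.1]
  · intro x
    rw [form_add]
    calc |a * (x ⬝ᵥ (P *ᵥ x)) + b * (x ⬝ᵥ (Q *ᵥ x))|
        ≤ |a * (x ⬝ᵥ (P *ᵥ x))| + |b * (x ⬝ᵥ (Q *ᵥ x))| := abs_add_le _ _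
      _ = a * |x ⬝ᵥ (P *ᵥ x)| + b * |x ⬝ᵥ (Q *ᵥ x)| := by
          rw [abs_mul, abs_mul, abs_of_nonneg ha, abs_of_nonneg hb]
      _ ≤ a * (x ⬝ᵥ x) + b * (x ⬝ᵥ x) := by
          have h1 := mul_le_mul_of_nonneg_left (hP.2 x) ha
          have h2 := mul_le_mul_of_nonneg_left (hQ.2 x) hb
          linarith
      _ = x ⬝ᵥ x := by rw [← add_mul, hab, one_mul]

theorem ball_compact (n : ℕ) : IsCompact (ball n) := by
  have hK : IsCompact (Set.univ.pi fun _ : Fin n => Set.univ.pi fun _ : Fin n =>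
      Set.Icc (-2 : ℝ) 2) :=
    isCompact_univ_pi fun _ => isCompact_univ_pi fun _ => isCompact_Icc
  refine IsCompact.of_isClosed_subset hK ?_ ?_
  · have e : ball n = {Q : Matrix (Fin n) (Fin n) ℝ | Qᵀ = Q} ∩
        ⋂ x : Fin n → ℝ, {Q : Matrix (Fin n) (Fin n) ℝ | |x ⬝ᵥ (Q *ᵥ x)| ≤ x ⬝ᵥ x} := by
      ext Q
      simp only [ball, Set.mem_ofPred_eq, Set.mem_inter_iff, Set.mem_iInter]
      rfl
    rw [e]
    apply IsClosed.inter
    · exact isClosed_eq (by fun_prop) continuous_id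
    · refine isClosed_iInter fun x => isClosed_le ?_ continuous_const
      simp only [form_eq]
      fun_prop
  · intro Q hQ i _ j _
    have e1 := abs_le.1 (hQ.2 (Pi.single i 1))
    have e2 := abs_le.1 (hQ.2 (Pi.single j 1))
    have e3 := abs_le.1 (hQ.2 (Pi.single i 1 + Pi.single j 1))
    have e4 : Q j i = Q i j := hQ.1.apply i j
    simp only [mulVec_add, add_dotProduct, dotProduct_add] at e3
    rw [Set.mem_Icc]
    rcases eq_or_ne i j with rfl | hij
    · simp at e1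
      constructor <;> linarith
    · simp [hij, hij.symm] at e1 e2 e3
      constructor <;> linarith

theorem capped_compact (F : Type) [Fintype F] (c : ℝ) :
    IsCompact {p : F → ℝ | p ∈ stdSimplex ℝ F ∧ ∀ w, p w ≤ c} := by
  have e : {p : F → ℝ | p ∈ stdSimplex ℝ F ∧ ∀ w, p w ≤ c} =
      stdSimplex ℝ F ∩ ⋂ w : F, {p : F → ℝ | p w ≤ c} := by
    ext p
    simp
  rw [e]
  exact (isCompact_stdSimplex ℝ F).inter_right
    (isClosed_iInter fun w => isClosed_le (continuous_apply w) continuous_const)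

theorem capped_convex (F : Type) [Fintype F] (c : ℝ) :
    Convex ℝ {p : F → ℝ | p ∈ stdSimplex ℝ F ∧ ∀ w, p w ≤ c} := by
  intro p hp q hq a b ha hb hab
  refine ⟨convex_stdSimplex ℝ F hp.1 hq.1 ha hb hab, fun w => ?_⟩
  have h1 := mul_le_mul_of_nonneg_left (hp.2 w) ha
  have h2 := mul_le_mul_of_nonneg_left (hq.2 w) hb
  calc (a • p + b • q) w = a * p w + b * q w := by simp
    _ ≤ a * c + b * c := by linarith
    _ = c := by rw [← add_mul, hab, one_mul]

/-- lattices with `γ(A)` close to `γ_n` have weights on their short vectors, with small atoms, for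
which the second moment is close to isotropic -/
theorem weights {n : ℕ} (hn : 0 < n) {A : Matrix (Fin n) (Fin n) ℝ} (hA : A.det ≠ 0)
    {τ : ℝ} (hτ0 : 0 < τ) (hτ1 : τ < 1) {t : ℝ} (ht : 1 ≤ t) {M : ℕ} (hM : 0 < M) :
    ∃ (F : Finset (Fin n → ℤ)) (p : (Fin n → ℤ) → ℝ),
      (∀ w ∈ F, w ∈ band A t ((1 + τ) / (1 - τ) * rho A t M * t) ∧ 0 ≤ p w ∧ p w ≤ 1 / M) ∧
      ∑ w ∈ F, p w = 1 ∧
      ∀ Q : Matrix (Fin n) (Fin n) ℝ, Q.IsSymm →
        (∀ x : Fin n → ℝ, |x ⬝ᵥ (Q *ᵥ x)| ≤ x ⬝ᵥ x) →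
        |∑ w ∈ F, p w * qval A Q w - Q.trace / n| ≤ (1 + τ) / τ * (rho A t M - 1) := by
  classical
  have hn' : (0 : ℝ) < n := by exact_mod_cast hn
  have hM' : (0 : ℝ) < M := by exact_mod_cast hM
  set ρ : ℝ := rho A t M with hρ
  set r : ℝ := (1 + τ) / (1 - τ) with hr
  set κ : ℝ := (1 + τ) / τ * (ρ - 1) with hκ
  have hfin := band_finite hA t (r * ρ * t)
  set F := hfin.toFinset with hF
  have hFm : ∀ x, x ∈ F ↔ x ∈ band A t (r * ρ * t) := by
    intro x
    rw [hF, Set.Finite.mem_toFinset]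
  set Y : Set (F → ℝ) := {p | p ∈ stdSimplex ℝ F ∧ ∀ w, p w ≤ 1 / M} with hY
  set f : Matrix (Fin n) (Fin n) ℝ → (F → ℝ) → ℝ :=
    fun Q p => ∑ w : F, p w * (qval A Q w - Q.trace / n) with hf
  have hcore : ∀ Q ∈ ball n, ∃ p ∈ Y, -κ ≤ f Q p := by
    intro Q hQ
    obtain ⟨hv, hgc⟩ := many hn hA hτ0 hτ1 ht hM hQ.1 hQ.2
    have hgf : (band A t ((1 + τ) / (1 - τ) * rho A t M * t) ∩
      {w | bound A Q τ t M ≤ qval A Q w}).Finite :=
      (band_finite hA _ _).subset Set.inter_subset_left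
    rw [Set.ncard_eq_toFinset_card _ hgf] at hgc
    obtain ⟨G, hG, hGc⟩ := Finset.exists_subset_card_eq hgc
    have hGF : ∀ w ∈ G, w ∈ F ∧ Q.trace / n - κ ≤ qval A Q w := by
      intro w hw
      have h1 := hG hw
      rw [Set.Finite.mem_toFinset] at h1
      obtain ⟨h2, h4⟩ := h1
      refine ⟨(hFm w).2 h2, le_trans ?_ h4⟩
      have : 0 ≤ τ / (2 * (1 + τ)) * ((Q * Q).trace / n - (Q.trace / n) ^ 2) := by positivity
      rw [bound, ← hρ, ← hκ]
      linarith
    have hs1 : ∀ g : (Fin n → ℤ) → ℝ,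
        ∑ w : F, (if (w : Fin n → ℤ) ∈ G then 1 / (M : ℝ) else 0) * g w =
          ∑ w ∈ G, 1 / (M : ℝ) * g w := by
      intro g
      rw [Finset.sum_coe_sort F (fun w => (if w ∈ G then 1 / (M : ℝ) else 0) * g w)]
      rw [← Finset.sum_subset (fun w hw => (hGF w hw).1) (by
        intro w _ hw
        rw [if_neg hw, zero_mul])]
      refine Finset.sum_congr rfl fun w hw => by rw [if_pos hw]
    refine ⟨fun w => if (w : Fin n → ℤ) ∈ G then 1 / (M : ℝ) else 0, ⟨⟨?_, ?_⟩, ?_⟩, ?_⟩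
    · intro w
      change 0 ≤ (if (w : Fin n → ℤ) ∈ G then 1 / (M : ℝ) else 0)
      split_ifs
      · positivity
      · exact le_rfl
    · have := hs1 (fun _ => 1)
      simp only [mul_one] at this
      rw [this, Finset.sum_const, hGc, nsmul_eq_mul]
      field_simp
    · intro w
      change (if (w : Fin n → ℤ) ∈ G then 1 / (M : ℝ) else 0) ≤ 1 / M
      split_ifs
      · exact le_rfl
      · positivity
    · simp only [hf]
      rw [hs1 (fun w => qval A Q w - Q.trace / n)]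
      calc -κ = ∑ _w ∈ G, 1 / (M : ℝ) * (-κ) := by
            rw [Finset.sum_const, hGc, nsmul_eq_mul]
            field_simp
        _ ≤ _ := by
            apply Finset.sum_le_sum
            intro w hw
            have := (hGF w hw).2
            apply mul_le_mul_of_nonneg_left _ (by positivity)
            linarith
  have h0 : (0 : Matrix (Fin n) (Fin n) ℝ) ∈ ball n := by
    refine ⟨by simp [Matrix.IsSymm], fun x => ?_⟩
    simp only [zero_mulVec, dotProduct_zero, abs_zero]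
    unfold dotProduct
    exact Finset.sum_nonneg fun i _ => mul_self_nonneg _
  obtain ⟨p0, hp0, _⟩ := hcore 0 h0
  have hqadd : ∀ (P Q : Matrix (Fin n) (Fin n) ℝ) (a b : ℝ) (w : Fin n → ℤ),
      qval A (a • P + b • Q) w = a * qval A P w + b * qval A Q w := by
    intro P Q a b w
    unfold qval
    rw [form_add]
    ring
  have hf1 : ∀ (P Q : Matrix (Fin n) (Fin n) ℝ) (a b : ℝ) (p : F → ℝ),
      f (a • P + b • Q) p = a * f P p + b * f Q p := by
    intro P Q a b p
    simp only [hf, hqadd, trace_add, trace_smul, smul_eq_mul]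
    rw [Finset.mul_sum, Finset.mul_sum, ← Finset.sum_add_distrib]
    refine Finset.sum_congr rfl fun w _ => by ring
  have hf2 : ∀ (Q : Matrix (Fin n) (Fin n) ℝ) (a b : ℝ) (p q : F → ℝ),
      f Q (a • p + b • q) = a * f Q p + b * f Q q := by
    intro Q a b p q
    simp only [hf, Pi.add_apply, Pi.smul_apply, smul_eq_mul]
    rw [Finset.mul_sum, Finset.mul_sum, ← Finset.sum_add_distrib]
    refine Finset.sum_congr rfl fun w _ => by ring
  have hc1 : ∀ p : F → ℝ, Continuous fun Q => f Q p := by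
    intro p
    simp only [hf, qval, form_eq, Matrix.trace, Matrix.diag_apply]
    fun_prop
  have hc2 : ∀ Q, Continuous fun p => f Q p := by
    intro Q
    simp only [hf]
    fun_prop
  obtain ⟨a, ha, b, hb, hab⟩ := Sion.exists_isSaddlePointOn (X := ball n)
    (Y := Y) (f := f) ⟨0, h0⟩ (ball_convex n) (ball_compact n)
    (fun p _ => (hc1 p).lowerSemicontinuous.lowerSemicontinuousOn _)
    (fun p _ => ConvexOn.quasiconvexOn ⟨ball_convex n, fun P _ Q _ s t _ _ _ => by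
      exact le_of_eq (hf1 P Q s t p)⟩)
    (capped_convex F _)
    ⟨p0, hp0⟩
    (capped_compact F _)
    (fun Q _ => (hc2 Q).upperSemicontinuous.upperSemicontinuousOn _)
    (fun Q _ => ConcaveOn.quasiconcaveOn ⟨capped_convex F _, fun P _ Q' _ s t _ _ _ => by
      exact le_of_eq (hf2 Q s t P Q').symm⟩)
  have hlow : ∀ Q ∈ ball n, -κ ≤ f Q b := by
    intro Q hQ
    obtain ⟨p, hp, hpq⟩ := hcore a ha
    exact hpq.trans (hab Q hQ p hp)
  refine ⟨F, fun w => if h : w ∈ F then b ⟨w, h⟩ else 0, ?_, ?_, ?_⟩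
  · intro w hw
    refine ⟨(hFm w).1 hw, ?_, ?_⟩
    · simp only [dif_pos hw]
      exact hb.1.1 _
    · simp only [dif_pos hw]
      exact hb.2 _
  · rw [← Finset.sum_coe_sort, ← hb.1.2]
    refine Finset.sum_congr rfl fun w _ => ?_
    rw [dif_pos w.2]
  · intro Q hQ hQ1
    have e1 : ∀ Q : Matrix (Fin n) (Fin n) ℝ,
        ∑ w ∈ F, (if h : w ∈ F then b ⟨w, h⟩ else 0) * qval A Q w - Q.trace / n = f Q b := by
      intro Q
      simp only [hf]
      rw [← Finset.sum_coe_sort]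
      simp only [mul_sub]
      rw [Finset.sum_sub_distrib, ← Finset.sum_mul, hb.1.2, one_mul]
      congr 1
      refine Finset.sum_congr rfl fun w _ => ?_
      rw [dif_pos w.2]
    rw [e1, abs_le]
    refine ⟨hlow Q ⟨hQ, hQ1⟩, ?_⟩
    have h1 := hlow (-Q) ⟨by rw [Matrix.IsSymm, transpose_neg, hQ], by
      intro x
      rw [Matrix.neg_mulVec, dotProduct_neg, abs_neg]
      exact hQ1 x⟩
    have h2 : f (-Q) b = - f Q b := by
      have := hf1 Q 0 (-1) 0 b
      simp only [neg_smul, one_smul, smul_zero, add_zero, zero_mul, neg_mul, one_mul] at this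
      exact this
    rw [h2] at h1
    linarith

end Pool.Agent.K4H31.SV
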