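import Pool.Agent.K4H31.SV.Mini

/-! Pair correlations (for MP_ef2672_gt). -/

open Matrix Finset

namespace Pool.Agent.K4H31.SV

open Pool.Agent.H160R3.Herm Pool.Agent.TH220.HG

theorem form_vmv {n : ℕ} (x y : Fin n → ℝ) : x ⬝ᵥ (vecMulVec y y *ᵥ x) = (x ⬝ᵥ y) ^ 2 := by
  rw [vecMulVec_mulVec, dotProduct_smul, dotProduct_comm y x, op_smul_eq_mul, sq]

theorem dot_sq_le {n : ℕ} (x y : Fin n → ℝ) : (x ⬝ᵥ y) ^ 2 ≤ (x ⬝ᵥ x) * (y ⬝ᵥ y) := by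
  unfold dotProduct
  have := Finset.sum_mul_sq_le_sq_mul_sq Finset.univ x y
  simpa only [sq] using this

theorem pair {n : ℕ} {A : Matrix (Fin n) (Fin n) ℝ} (hA : A.det ≠ 0)
    (F : Finset (Fin n → ℤ)) (p : (Fin n → ℤ) → ℝ) (h0 : ∀ w ∈ F, w ≠ 0) (hp : ∀ w ∈ F, 0 ≤ p w)
    (hs : ∑ w ∈ F, p w = 1) {κ : ℝ}
    (h : ∀ Q : Matrix (Fin n) (Fin n) ℝ, Q.IsSymm →
        (∀ x : Fin n → ℝ, |x ⬝ᵥ (Q *ᵥ x)| ≤ x ⬝ᵥ x) →
        |∑ w ∈ F, p w * qval A Q w - Q.trace / n| ≤ κ) :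
    ∑ w ∈ F, ∑ z ∈ F, p w * p z * ((vec A w ⬝ᵥ vec A z) ^ 2 / (nsq A w * nsq A z)) ≤
      1 / n + κ := by
  set Q : Matrix (Fin n) (Fin n) ℝ :=
    ∑ z ∈ F, (p z / nsq A z) • vecMulVec (vec A z) (vec A z) with hQ
  have hx : ∀ x : Fin n → ℝ, x ⬝ᵥ (Q *ᵥ x) = ∑ z ∈ F, (p z / nsq A z) * (x ⬝ᵥ vec A z) ^ 2 := by
    intro x
    rw [hQ, Matrix.sum_mulVec, dotProduct_sum]
    refine Finset.sum_congr rfl fun z _ => ?_
    rw [Matrix.smul_mulVec, dotProduct_smul, smul_eq_mul, form_vmv]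
  have hsym : Q.IsSymm := by
    rw [Matrix.IsSymm, hQ, transpose_sum]
    refine Finset.sum_congr rfl fun z _ => ?_
    rw [transpose_smul, transpose_vecMulVec]
  have htr : Q.trace = 1 := by
    rw [hQ, trace_sum, ← hs]
    refine Finset.sum_congr rfl fun z hz => ?_
    rw [trace_smul, trace_vecMulVec, smul_eq_mul, vec_dot, div_mul_cancel₀ _ (nsq_pos hA (h0 z hz)).ne']
  have hb : ∀ x : Fin n → ℝ, |x ⬝ᵥ (Q *ᵥ x)| ≤ x ⬝ᵥ x := by
    intro x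
    have h1 : 0 ≤ x ⬝ᵥ (Q *ᵥ x) := by
      rw [hx]
      refine Finset.sum_nonneg fun z hz => ?_
      have := nsq_pos hA (h0 z hz)
      have := hp z hz
      positivity
    rw [abs_of_nonneg h1, hx]
    calc ∑ z ∈ F, (p z / nsq A z) * (x ⬝ᵥ vec A z) ^ 2 ≤ ∑ z ∈ F, p z * (x ⬝ᵥ x) := by
          apply Finset.sum_le_sum
          intro z hz
          have h2 := nsq_pos hA (h0 z hz)
          have h3 := hp z hz
          have h4 := dot_sq_le x (vec A z)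
          rw [vec_dot] at h4
          calc (p z / nsq A z) * (x ⬝ᵥ vec A z) ^ 2 ≤ (p z / nsq A z) * ((x ⬝ᵥ x) * nsq A z) :=
                mul_le_mul_of_nonneg_left h4 (by positivity)
            _ = p z * (x ⬝ᵥ x) := by field_simp
      _ = x ⬝ᵥ x := by rw [← Finset.sum_mul, hs, one_mul]
  have h1 := (abs_le.1 (h Q hsym hb)).2
  rw [htr] at h1
  have h2 : ∑ w ∈ F, ∑ z ∈ F, p w * p z * ((vec A w ⬝ᵥ vec A z) ^ 2 / (nsq A w * nsq A z)) =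
      ∑ w ∈ F, p w * qval A Q w := by
    refine Finset.sum_congr rfl fun w hw => ?_
    unfold qval
    rw [hx, Finset.sum_div, Finset.mul_sum]
    refine Finset.sum_congr rfl fun z hz => ?_
    have := nsq_pos hA (h0 z hz)
    have := nsq_pos hA (h0 w hw)
    field_simp
  rw [h2]
  linarith

/-- the headline form -/
theorem headline {n : ℕ} (hn : 0 < n) {A : Matrix (Fin n) (Fin n) ℝ} (hA : A.det ≠ 0)
    {τ : ℝ} (hτ0 : 0 < τ) (hτ1 : τ ≤ 1 / 4) (hg : (1 - τ ^ 2) * hermite n ≤ gam A) {M : ℕ}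
    (hM : 0 < M) (hM2 : (M : ℝ) ≤ (1 + τ ^ 2) ^ ((n : ℝ) / 2)) :
    ∃ (F : Finset (Fin n → ℤ)) (p : (Fin n → ℤ) → ℝ),
      (∀ w ∈ F, w ≠ 0 ∧ nsq A w ≤ (1 + 5 * τ) * minSq A ∧ 0 ≤ p w ∧ p w ≤ 1 / M) ∧
      ∑ w ∈ F, p w = 1 ∧
      (∀ Q : Matrix (Fin n) (Fin n) ℝ, Q.IsSymm →
        (∀ x : Fin n → ℝ, |x ⬝ᵥ (Q *ᵥ x)| ≤ x ⬝ᵥ x) →
        |∑ w ∈ F, p w * qval A Q w - Q.trace / n| ≤ 4 * τ) ∧
      ∑ w ∈ F, ∑ z ∈ F, p w * p z * ((vec A w ⬝ᵥ vec A z) ^ 2 / (nsq A w * nsq A z)) ≤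
        1 / n + 4 * τ := by
  have hn' : (0 : ℝ) < n := by exact_mod_cast hn
  have hM' : (0 : ℝ) < M := by exact_mod_cast hM
  have hgp := gam_pos hn hA
  have hmin := minSq_pos hn hA
  obtain ⟨F, p, hF, hs, hQ⟩ := weights hn hA hτ0 (by linarith : τ < 1) (le_refl (1 : ℝ)) hM
  have hc0 : cnt A 1 = 0 := by
    unfold cnt
    rw [Set.ncard_eq_zero (short_finite hA 1), Set.eq_empty_iff_forall_notMem]
    rintro w ⟨hw, hw2⟩
    have := minSq_le A w hw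
    change minSq A ≤ nsq A w at this
    linarith
  have h1 : 0 < 1 - τ ^ 2 := by nlinarith
  have hR : hermite n / gam A ≤ 1 / (1 - τ ^ 2) := by
    rw [div_le_div_iff₀ hgp h1]
    linarith
  have hMM : (M : ℝ) ^ ((2 : ℝ) / n) ≤ 1 + τ ^ 2 := by
    calc (M : ℝ) ^ ((2 : ℝ) / n) ≤ ((1 + τ ^ 2) ^ ((n : ℝ) / 2)) ^ ((2 : ℝ) / n) :=
          Real.rpow_le_rpow hM'.le hM2 (by positivity)
      _ = 1 + τ ^ 2 := by
          rw [← Real.rpow_mul (by positivity)]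
          have : (n : ℝ) / 2 * (2 / n) = 1 := by field_simp
          rw [this, Real.rpow_one]
  have hρ : rho A 1 M ≤ (1 + τ ^ 2) / (1 - τ ^ 2) := by
    unfold rho
    rw [hc0, zero_add, div_one]
    calc hermite n / gam A * (M : ℝ) ^ ((2 : ℝ) / n) ≤ 1 / (1 - τ ^ 2) * (1 + τ ^ 2) := by
          apply mul_le_mul hR hMM (by positivity) (by positivity)
      _ = _ := by ring
  have hκ : (1 + τ) / τ * (rho A 1 M - 1) ≤ 4 * τ := by
    calc (1 + τ) / τ * (rho A 1 M - 1) ≤ (1 + τ) / τ * ((1 + τ ^ 2) / (1 - τ ^ 2) - 1) := by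
          apply mul_le_mul_of_nonneg_left _ (by positivity)
          linarith
      _ = 2 * τ / (1 - τ) := by
          have h2 : (1 - τ ^ 2) = (1 - τ) * (1 + τ) := by ring
          have h3 : 0 < 1 - τ := by linarith
          rw [h2]
          field_simp
          ring
      _ ≤ 4 * τ := by
          rw [div_le_iff₀ (by linarith)]
          nlinarith
  have hthr : (1 + τ) / (1 - τ) * rho A 1 M * 1 ≤ 1 + 5 * τ := by
    have h3 : 0 < 1 - τ := by linarith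
    calc (1 + τ) / (1 - τ) * rho A 1 M * 1 ≤
          (1 + τ) / (1 - τ) * ((1 + τ ^ 2) / (1 - τ ^ 2)) := by
          rw [mul_one]
          exact mul_le_mul_of_nonneg_left hρ (by positivity)
      _ = (1 + τ ^ 2) / (1 - τ) ^ 2 := by
          have h2 : (1 - τ ^ 2) = (1 - τ) * (1 + τ) := by ring
          rw [h2]
          field_simp
      _ ≤ 1 + 5 * τ := by
          rw [div_le_iff₀ (by positivity)]
          nlinarith [mul_pos hτ0 hτ0, mul_pos hτ0 (mul_pos hτ0 hτ0)]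
  have hQ' : ∀ Q : Matrix (Fin n) (Fin n) ℝ, Q.IsSymm →
        (∀ x : Fin n → ℝ, |x ⬝ᵥ (Q *ᵥ x)| ≤ x ⬝ᵥ x) →
        |∑ w ∈ F, p w * qval A Q w - Q.trace / n| ≤ 4 * τ :=
    fun Q h1 h2 => (hQ Q h1 h2).trans hκ
  refine ⟨F, p, fun w hw => ?_, hs, hQ', ?_⟩
  · obtain ⟨⟨c1, c2, c3⟩, c4, c5⟩ := hF w hw
    exact ⟨c1, c3.trans (mul_le_mul_of_nonneg_right hthr hmin.le), c4, c5⟩
  · exact pair hA F p (fun w hw => (hF w hw).1.1) (fun w hw => (hF w hw).2.1) hs hQ'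

end Pool.Agent.K4H31.SV
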