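import Pool.Agent.K4H31.SV.Core

/-! Near-optimal lattices are nearly perfect (for MP_ef2672_gt). -/

open Matrix Finset

namespace Pool.Agent.K4H31.SV

open Pool.Agent.H160R3.Herm Pool.Agent.TH220.HG

theorem trace_sq_eq {n : ℕ} {Q : Matrix (Fin n) (Fin n) ℝ} (hQ : Q.IsSymm) :
    (Q * Q).trace = ∑ i, ∑ j, Q i j ^ 2 := by
  unfold Matrix.trace
  refine Finset.sum_congr rfl fun i _ => ?_
  rw [Matrix.diag_apply, Matrix.mul_apply]
  refine Finset.sum_congr rfl fun j _ => ?_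
  rw [sq, hQ.apply i j]

theorem form_eq {n : ℕ} (Q : Matrix (Fin n) (Fin n) ℝ) (x : Fin n → ℝ) :
    x ⬝ᵥ (Q *ᵥ x) = ∑ i, ∑ j, Q i j * (x i * x j) := by
  unfold dotProduct Matrix.mulVec dotProduct
  refine Finset.sum_congr rfl fun i _ => ?_
  rw [Finset.mul_sum]
  refine Finset.sum_congr rfl fun j _ => ?_
  ring

/-- the quadratic form is bounded by the Hilbert-Schmidt norm -/
theorem form_sq_le {n : ℕ} {Q : Matrix (Fin n) (Fin n) ℝ} (hQ : Q.IsSymm) (x : Fin n → ℝ) :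
    (x ⬝ᵥ (Q *ᵥ x)) ^ 2 ≤ (Q * Q).trace * (x ⬝ᵥ x) ^ 2 := by
  rw [form_eq, trace_sq_eq hQ]
  have h1 : ∑ i, ∑ j, Q i j * (x i * x j) = ∑ p : Fin n × Fin n, Q p.1 p.2 * (x p.1 * x p.2) := by
    rw [Fintype.sum_prod_type]
  have h2 : ∑ i, ∑ j, Q i j ^ 2 = ∑ p : Fin n × Fin n, Q p.1 p.2 ^ 2 := by
    rw [Fintype.sum_prod_type]
  have h3 : (x ⬝ᵥ x) ^ 2 = ∑ p : Fin n × Fin n, (x p.1 * x p.2) ^ 2 := by
    rw [Fintype.sum_prod_type]
    unfold dotProduct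
    rw [sq, Finset.sum_mul_sum]
    refine Finset.sum_congr rfl fun i _ => Finset.sum_congr rfl fun j _ => by ring
  rw [h1, h2, h3]
  exact Finset.sum_mul_sq_le_sq_mul_sq _ _ _

theorem qval_neg {n : ℕ} (A Q : Matrix (Fin n) (Fin n) ℝ) (w : Fin n → ℤ) :
    qval A (-Q) w = - qval A Q w := by
  unfold qval
  rw [Matrix.neg_mulVec, dotProduct_neg, neg_div]

/-- robust perfection -/
theorem robust {n : ℕ} (hn : 0 < n) {A : Matrix (Fin n) (Fin n) ℝ} (hA : A.det ≠ 0)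
    {τ : ℝ} (hτ0 : 0 < τ) (hτ1 : τ < 1) {Q : Matrix (Fin n) (Fin n) ℝ} (hQ : Q.IsSymm)
    (hQ1 : ∀ x : Fin n → ℝ, |x ⬝ᵥ (Q *ᵥ x)| ≤ x ⬝ᵥ x) :
    ∃ w : Fin n → ℤ, w ≠ 0 ∧ nsq A w < (1 + τ) / (1 - τ) * minSq A ∧
      τ / (2 * (1 + τ)) * ((Q * Q).trace / n) - (1 + τ) / τ * (hermite n / gam A - 1) ≤
        |qval A Q w| := by
  have hn' : (0 : ℝ) < n := by exact_mod_cast hn
  have key : ∀ Q : Matrix (Fin n) (Fin n) ℝ, Q.IsSymm →
      (∀ x : Fin n → ℝ, |x ⬝ᵥ (Q *ᵥ x)| ≤ x ⬝ᵥ x) → 0 ≤ Q.trace →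
      ∃ w : Fin n → ℤ, w ≠ 0 ∧ nsq A w < (1 + τ) / (1 - τ) * minSq A ∧
      τ / (2 * (1 + τ)) * ((Q * Q).trace / n) - (1 + τ) / τ * (hermite n / gam A - 1) ≤
        |qval A Q w| := by
    intro Q hQ hQ1 ht
    obtain ⟨_, w, hw, hws, hwq⟩ := core hn hA hτ0 hτ1 hQ hQ1
    refine ⟨w, hw, hws, le_trans ?_ (hwq.trans (le_abs_self _))⟩
    have h1 := trace_abs hQ1
    rw [abs_of_nonneg ht] at h1
    set m : ℝ := Q.trace / n with hm
    have hm0 : 0 ≤ m := by positivity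
    have hm1 : m ≤ 1 := by rw [hm, div_le_one hn']; exact h1
    set c : ℝ := τ / (2 * (1 + τ)) with hc
    have hc0 : 0 ≤ c := by positivity
    have hc1 : c ≤ 1 := by
      rw [hc, div_le_one (by positivity)]; linarith
    have : c * m ^ 2 ≤ m := by nlinarith [mul_nonneg hc0 hm0, mul_nonneg hm0 (sub_nonneg.2 hm1)]
    have e : c * ((Q * Q).trace / n - m ^ 2) = c * ((Q * Q).trace / n) - c * m ^ 2 := by ring
    rw [e]
    linarith
  rcases le_or_gt 0 Q.trace with h | h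
  · exact key Q hQ hQ1 h
  · obtain ⟨w, hw, hws, hwq⟩ := key (-Q) (by rw [Matrix.IsSymm, transpose_neg, hQ])
      (by
        intro x
        rw [Matrix.neg_mulVec, dotProduct_neg, abs_neg]
        exact hQ1 x)
      (by rw [trace_neg]; linarith)
    refine ⟨w, hw, hws, ?_⟩
    rw [qval_neg, abs_neg, neg_mul_neg] at hwq
    exact hwq

/-- near-optimal lattices are perfect with respect to their short vectors -/
theorem perfect {n : ℕ} (hn : 0 < n) {A : Matrix (Fin n) (Fin n) ℝ} (hA : A.det ≠ 0)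
    {τ : ℝ} (hτ0 : 0 < τ) (hτ1 : τ < 1)
    (hκ : (1 + τ) / τ * (hermite n / gam A - 1) < τ / (2 * (1 + τ) * n))
    {Q : Matrix (Fin n) (Fin n) ℝ} (hQ : Q.IsSymm)
    (h : ∀ w : Fin n → ℤ, w ≠ 0 → nsq A w < (1 + τ) / (1 - τ) * minSq A →
      vec A w ⬝ᵥ (Q *ᵥ vec A w) = 0) : Q = 0 := by
  have hn' : (0 : ℝ) < n := by exact_mod_cast hn
  by_contra hQ0
  -- the maximum of the form on the sphere
  have hK : IsCompact {x : Fin n → ℝ | x ⬝ᵥ x = 1} := by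
    apply IsCompact.of_isClosed_subset (isCompact_univ_pi fun _ : Fin n => isCompact_Icc (a := (-1 : ℝ)) (b := 1))
    · exact isClosed_eq (by unfold dotProduct; fun_prop) continuous_const
    · intro x hx i _
      have h1 : x i * x i ≤ 1 := by
        rw [← (hx : x ⬝ᵥ x = 1)]
        unfold dotProduct
        exact Finset.single_le_sum (f := fun i => x i * x i) (fun _ _ => mul_self_nonneg _)
          (Finset.mem_univ i)
      rw [Set.mem_Icc]
      constructor <;> nlinarith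
  have hne : {x : Fin n → ℝ | x ⬝ᵥ x = 1}.Nonempty := ⟨Pi.single ⟨0, hn⟩ 1, by simp⟩
  obtain ⟨x0, hx0, hmax⟩ := hK.exists_isMaxOn hne
    (f := fun x => |x ⬝ᵥ (Q *ᵥ x)|) (by
      apply Continuous.continuousOn
      simp only [form_eq]
      fun_prop)
  set N : ℝ := |x0 ⬝ᵥ (Q *ᵥ x0)| with hN
  have hbd : ∀ x : Fin n → ℝ, |x ⬝ᵥ (Q *ᵥ x)| ≤ N * (x ⬝ᵥ x) := by
    intro x
    have hxx : 0 ≤ x ⬝ᵥ x := by
      unfold dotProduct
      exact Finset.sum_nonneg fun i _ => mul_self_nonneg _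
    rcases hxx.eq_or_lt with h0 | h0
    · have : x = 0 := by
        have := dotProduct_self_eq_zero.1 h0.symm
        exact this
      rw [this]
      simp
    · set t : ℝ := (√(x ⬝ᵥ x))⁻¹ with ht
      have ht2 : t * t * (x ⬝ᵥ x) = 1 := by
        rw [ht, ← mul_inv, Real.mul_self_sqrt hxx, inv_mul_cancel₀ h0.ne']
      have h1 : (t • x) ∈ {x : Fin n → ℝ | x ⬝ᵥ x = 1} := by
        change (t • x) ⬝ᵥ (t • x) = 1
        rw [smul_dotProduct, dotProduct_smul, smul_eq_mul, smul_eq_mul, ← mul_assoc]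
        exact ht2
      have h2 := hmax h1
      change |(t • x) ⬝ᵥ (Q *ᵥ (t • x))| ≤ N at h2
      rw [mulVec_smul, smul_dotProduct, dotProduct_smul, smul_eq_mul, smul_eq_mul, ← mul_assoc,
        abs_mul, abs_mul_self] at h2
      have h3 : |x ⬝ᵥ (Q *ᵥ x)| = t * t * |x ⬝ᵥ (Q *ᵥ x)| * (x ⬝ᵥ x) := by
        calc |x ⬝ᵥ (Q *ᵥ x)| = (t * t * (x ⬝ᵥ x)) * |x ⬝ᵥ (Q *ᵥ x)| := by rw [ht2, one_mul]
          _ = _ := by ring
      rw [h3]
      exact mul_le_mul_of_nonneg_right h2 hxx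
  have hN0 : 0 < N := by
    rcases (abs_nonneg (x0 ⬝ᵥ (Q *ᵥ x0))).eq_or_lt with h0 | h0
    · exfalso
      apply hQ0
      have hz : ∀ x : Fin n → ℝ, x ⬝ᵥ (Q *ᵥ x) = 0 := by
        intro x
        have := hbd x
        rw [hN, ← h0, zero_mul] at this
        exact abs_nonpos_iff.1 this
      ext i j
      have e1 := hz (Pi.single i 1)
      have e2 := hz (Pi.single j 1)
      have e3 := hz (Pi.single i 1 + Pi.single j 1)
      have e4 : Q j i = Q i j := hQ.apply i j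
      simp only [mulVec_add, add_dotProduct, dotProduct_add] at e3
      simp at e1 e2 e3
      simp only [Matrix.zero_apply]
      linarith
    · exact h0
  -- scaling
  set P : Matrix (Fin n) (Fin n) ℝ := N⁻¹ • Q with hP
  have hPx : ∀ x : Fin n → ℝ, x ⬝ᵥ (P *ᵥ x) = N⁻¹ * (x ⬝ᵥ (Q *ᵥ x)) := by
    intro x
    rw [hP, Matrix.smul_mulVec, dotProduct_smul, smul_eq_mul]
  have hPs : P.IsSymm := by
    rw [Matrix.IsSymm, hP, transpose_smul, hQ]
  have hP1 : ∀ x : Fin n → ℝ, |x ⬝ᵥ (P *ᵥ x)| ≤ x ⬝ᵥ x := by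
    intro x
    rw [hPx, abs_mul, abs_of_pos (inv_pos.2 hN0), inv_mul_le_iff₀ hN0]
    exact hbd x
  have hP2 : 1 ≤ (P * P).trace := by
    have h1 := form_sq_le hPs x0
    rw [(hx0 : x0 ⬝ᵥ x0 = 1), one_pow, mul_one, hPx, ← sq_abs, abs_mul, ← hN,
      abs_of_pos (inv_pos.2 hN0), inv_mul_cancel₀ hN0.ne', one_pow] at h1
    exact h1
  obtain ⟨w, hw, hws, hwq⟩ := robust hn hA hτ0 hτ1 hPs hP1
  have h0 : qval A P w = 0 := by
    unfold qval
    rw [hPx, h w hw hws]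
    simp
  rw [h0, abs_zero] at hwq
  have h3 : τ / (2 * (1 + τ) * n) ≤ τ / (2 * (1 + τ)) * ((P * P).trace / n) := by
    have : τ / (2 * (1 + τ) * n) = τ / (2 * (1 + τ)) * (1 / n) := by field_simp
    rw [this]
    gcongr
  linarith

end Pool.Agent.K4H31.SV
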